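import Pool.Agent.H48.PC.FltC
import Pool.Agent.H54.PC.Chain

/-!
# Flat cells: the exact point with the labels of the boxes
-/

set_option autoImplicit false

namespace Pool.FLT

open Finset Real
open Pool.Agent.H49.Ent Pool.Agent.H32.Dense Pool.STK Pool.KA Pool.KSAT Pool.K2S Pool.S6U
open Pool.UEG Pool.PC

variable {J : ℕ}

/-- A number and its digits. -/
theorem dig_near (x : ℝ) (n : ℕ) : |x - (⌊(2 : ℝ) ^ n * x⌋ : ℝ) / 2 ^ n| ≤ 1 / 2 ^ n := by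
  have hn : (0 : ℝ) < 2 ^ n := by positivity
  have a1 := Int.floor_le ((2 : ℝ) ^ n * x)
  have a2 := Int.lt_floor_add_one ((2 : ℝ) ^ n * x)
  have e : x - (⌊(2 : ℝ) ^ n * x⌋ : ℝ) / 2 ^ n = (2 ^ n * x - ⌊(2 : ℝ) ^ n * x⌋) / 2 ^ n := by
    field_simp
  rw [e, abs_div, abs_of_pos hn]
  refine div_le_div_of_nonneg_right ?_ hn.le
  rw [abs_le]
  constructor <;> linarith

/-- The exact points with the labels of the boxes up to level `k` are the data of a flat cell. -/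
theorem ptd_ptk {F : Fam 2 J} {A : F.Ω → Prop} (hA : ∀ ω, 0 < F.p ω → A ω) (B : ℕ → Bx F)
    {k R : ℕ} (hR : R ≤ J) {σ : Fin 2 → Fin 2} (h0 : σ 0 = (B k).i0) (h1 : σ 1 = oth (B k).i0)
    (hO : (B k).Ok A) : PtD (F.cot R) F.p σ (B k).a (ptk (F := F) B k) R (B k).n J 1 := by
  have on : ∀ ω, 0 < F.p ω → On F A ω := fun ω hω => ⟨hω, hA ω hω⟩
  have dl : ∀ ω ω' : F.Ω, 0 < F.p ω → 0 < F.p ω' → ptk B k ω = ptk B k ω' →
      (B k).lab ω = (B k).lab ω' := fun ω ω' hω hω' e =>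
    ptk_det_lab (A := A) B (le_refl k) ω ω' (on ω hω) (on ω' hω') e
  have dp : ∀ ω ω' : F.Ω, ptk B k ω = ptk B k ω' → F.X J ω = F.X J ω' ∧ F.T ω = F.T ω' ∧
      F.Z ω = F.Z ω' := by
    intro ω ω' e
    have e1 : pt F ω = pt F ω' := congrArg Prod.fst e
    have e2 := Prod.ext_iff.mp e1
    have e3 : F.W ω = F.W ω' := e2.2
    have e4 := Prod.ext_iff.mp e3
    exact ⟨e2.1, e4.1, e4.2⟩
  have tn : ∀ ω : F.Ω, |F.t ω - (F.T1 R ω : ℝ) / 2 ^ R| ≤ 1 / 2 ^ R := by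
    intro ω
    have := Lab.time_near F hR le_rfl (v := R) (min_eq_left hR).symm ω
    rw [Lab.T1_J] at this
    exact this
  have xn : ∀ (ω : F.Ω) (i : Fin 2), |(F.cot R).x ω i - ((F.X J ω i : ℝ) / 2 ^ J -
      (F.t ω - (F.T1 R ω : ℝ) / 2 ^ R) * F.d ω i)| ≤ 1 / 2 ^ J := by
    intro ω i
    have e1 : (F.cot R).x ω i = F.x1 R ω i := congrFun (Cot.x_eq F hR ω) i
    have e2 : F.x1 R ω i = F.u ω i + (F.T1 R ω : ℝ) / 2 ^ R * F.d ω i := rfl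
    have e3 : F.x ω i = F.u ω i + F.t ω * F.d ω i := rfl
    have e6 : (F.X J ω i : ℝ) = (⌊(2 : ℝ) ^ J * F.x ω i⌋ : ℝ) := rfl
    have e5 : (F.cot R).x ω i - ((F.X J ω i : ℝ) / 2 ^ J -
        (F.t ω - (F.T1 R ω : ℝ) / 2 ^ R) * F.d ω i) =
        F.x ω i - (⌊(2 : ℝ) ^ J * F.x ω i⌋ : ℝ) / 2 ^ J := by
      rw [e6, e1, e2]
      linear_combination (-1 : ℝ) * e3
    rw [e5]
    exact dig_near _ _
  refine ⟨?_, ?_, ?_, fun ω hω => hO.sl ω (on ω hω), ?_, ?_⟩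
  · intro ω ω' hω hω' e
    exact congrArg Prod.fst (dl ω ω' hω hω' e)
  · intro ω ω' _ _ e
    show 2 ^ (J - R) * (F.T ω / 2 ^ (J - R)) = 2 ^ (J - R) * (F.T ω' / 2 ^ (J - R))
    rw [(dp ω ω' e).2.1]
  · intro ω ω' _ _ e
    exact (dp ω ω' e).2.2
  · refine ⟨fun (ω : F.Ω) i => (F.X J ω i : ℝ) / 2 ^ J,
      fun (ω : F.Ω) => F.t ω - (F.T1 R ω : ℝ) / 2 ^ R, ?_, fun ω _ => ⟨tn ω, fun i => xn ω i⟩⟩
    intro ω ω' _ _ e
    obtain ⟨e1, e2, -⟩ := dp ω ω' e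
    refine Prod.ext ?_ ?_
    · funext i
      exact congrArg (fun x : Fin 2 → ℤ => (x i : ℝ) / 2 ^ J) e1
    · exact congrArg (fun n : ℕ => (n : ℝ) / 2 ^ J - ((n / 2 ^ (J - R) : ℕ) : ℝ) / 2 ^ R) e2
  · refine ⟨fun ω => (⌊(2 : ℝ) ^ (B k).n * (B k).pr ω (F.d ω)⌋ : ℝ) / 2 ^ (B k).n, ?_, ?_⟩
    · intro ω ω' hω hω' e
      have e1 : ⌊(2 : ℝ) ^ (B k).n * (B k).pr ω (F.d ω)⌋ =
          ⌊(2 : ℝ) ^ (B k).n * (B k).pr ω' (F.d ω')⌋ :=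
        congrArg (fun x : ℝ × (ℤ × ℤ) => x.2.2) (dl ω ω' hω hω' e)
      show (⌊(2 : ℝ) ^ (B k).n * (B k).pr ω (F.d ω)⌋ : ℝ) / 2 ^ (B k).n =
        (⌊(2 : ℝ) ^ (B k).n * (B k).pr ω' (F.d ω')⌋ : ℝ) / 2 ^ (B k).n
      rw [e1]
    · intro ω _
      rw [h0, h1]
      exact dig_near _ _

end Pool.FLT
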