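import Pool.Agent.H48.PC.FltR
import Pool.Agent.H68.KG.Flt

/-!
# Flat cells: the theorem on a rectangle

`flat_rect` from `Pool.KG.flt_thm`: the bad contexts are those with a large term (TM) or (B0), the
activity of the exact points gives the activity given the context.
-/

set_option autoImplicit false

namespace Pool.FLT

open Finset Real
open Pool.Agent.H49.Ent Pool.Agent.H32.Dense Pool.STK Pool.KA Pool.KSAT Pool.K2S Pool.S6U
open Pool.UEG Pool.KG Pool.OCG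

theorem cv2_add (v q : ℕ) : (fun i => cv2 v 0 i + q) = cv2 v q := by
  funext i
  fin_cases i
  · show cv2 v 0 0 + q = cv2 v q 0
    unfold cv2
    simp
  · show cv2 v 0 1 + q = cv2 v q 1
    unfold cv2
    simp

section bad

variable {J : ℕ} {F : Fam 2 J} {p : F.Ω → ℝ} {σ : Fin 2 → Fin 2} {wa wb v D R X qa qb : ℕ}
  {a0 al : F.Ω → ℝ} {γ ι : ℝ}

/-- The contexts with a large term (B0). -/
theorem card_b0 (hp : IsLaw p) (hX : 2 ≤ X) (hs : ShF J wa wb v D R X qa qb γ)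
    (B : Finset (ℕ × ℕ)) (hB : B ⊆ Finset.Icc wa wb ×ˢ Finset.Ico qa qb)
    (hbad : ∀ x ∈ B, ι * X ≤ b0t F p x.1 (cv2 v x.2) (frm2 σ a0) X) :
    (B.card : ℝ) * (ι * X) ≤
      ((wb + 1 - wa : ℕ) * (qb - qa : ℕ)) * (X * (4 * γ * Real.log 2) + cb0) := by
  have hl2 : 0 ≤ Real.log 2 := Real.log_nonneg (by norm_num)
  have hX0 : (2 : ℝ) ≤ X := by exact_mod_cast hX
  have hA : (0 : ℝ) ≤ (wb + 1 - wa : ℕ) := Nat.cast_nonneg _
  have hQ : (0 : ℝ) ≤ (qb - qa : ℕ) := Nat.cast_nonneg _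
  have key : ∀ q ∈ Finset.Ico qa qb, ∑ w ∈ Finset.Icc wa wb,
      b0t F p w (cv2 v q) (frm2 σ a0) X ≤
      (wb + 1 - wa : ℕ) * (X * (4 * γ * Real.log 2) + cb0) := by
    intro q _
    have k1 := b0_tot (c := cv2 v q) (M := frm2 σ a0) (X := X) hp (by omega)
      (Finset.Icc wa wb) (fun w hw => (Finset.mem_Icc.1 hw).2.trans (hs.wR.trans hs.RJ))
    rw [Nat.card_Icc] at k1
    have k2 : (X : ℝ) * (2 * (X * Real.log 2 + 2 * Real.log 2)) ≤
        X * (4 * (γ * (wb + 1 - wa : ℕ)) * Real.log 2) := by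
      refine mul_le_mul_of_nonneg_left ?_ (by linarith only [hX0])
      have k3 : (X : ℝ) * Real.log 2 + 2 * Real.log 2 ≤ 2 * (X * Real.log 2) := by
        have := mul_le_mul_of_nonneg_right hX0 hl2
        linarith only [this]
      have k4 := mul_le_mul_of_nonneg_right hs.Xw hl2
      linarith only [k3, k4]
    refine k1.trans ?_
    have e : ((wb + 1 - wa : ℕ) : ℝ) * (X * (4 * γ * Real.log 2) + cb0) =
        X * (4 * (γ * (wb + 1 - wa : ℕ)) * Real.log 2) + cb0 * (wb + 1 - wa : ℕ) := by ring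
    rw [e]
    linarith only [k2]
  have s1 : ∑ x ∈ Finset.Icc wa wb ×ˢ Finset.Ico qa qb,
      b0t F p x.1 (cv2 v x.2) (frm2 σ a0) X ≤
      (qb - qa : ℕ) * ((wb + 1 - wa : ℕ) * (X * (4 * γ * Real.log 2) + cb0)) := by
    rw [Finset.sum_product_right]
    refine (Finset.sum_le_sum key).trans (le_of_eq ?_)
    rw [Finset.sum_const, Nat.card_Ico, nsmul_eq_mul]
  have k := Pool.PC.card_big (Finset.Icc wa wb ×ˢ Finset.Ico qa qb)
    (fun x => b0t F p x.1 (cv2 v x.2) (frm2 σ a0) X) (δ := ι * X)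
    (fun x _ => b0t_nonneg hp) s1 B hB hbad
  refine k.trans (le_of_eq ?_)
  ring

/-- The contexts with a large term (TM). -/
theorem card_tm (h : Rc2 F p σ wa wb (fun _ => v) D (fun _ => a0) al)
    (hT : Det p (F.T1 R) F.T) (hX : 3 ≤ X) (hs : ShF J wa wb v D R X qa qb γ)
    (B : Finset (ℕ × ℕ)) (hB : B ⊆ Finset.Icc wa wb ×ˢ Finset.Ico qa qb)
    (hbad : ∀ x ∈ B, ι * X ≤ tmt F p x.1 (cv2 v x.2) (frm2 σ a0) (Uni.dg D al) X) :
    (B.card : ℝ) * (ι * X) ≤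
      ((wb + 1 - wa : ℕ) * (qb - qa : ℕ)) * (X * (4 * γ)) := by
  have hp := h.law
  have hl2 : 0 ≤ Real.log 2 := Real.log_nonneg (by norm_num)
  have hl2' : Real.log 2 ≤ 1 := by
    have := Real.log_le_sub_one_of_pos (x := 2) (by norm_num)
    linarith
  have hl15 : Real.log 15 ≤ 3 := by
    have e1 : Real.log 15 ≤ Real.log 16 := Real.log_le_log (by norm_num) (by norm_num)
    have e2 : Real.log 16 = 4 * Real.log 2 := by
      rw [show (16 : ℝ) = 2 ^ 4 by norm_num, Real.log_pow]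
      push_cast
      ring
    have e3 : Real.log 2 < 0.6931471808 := Real.log_two_lt_d9
    rw [e2] at e1
    linarith only [e1, e3]
  have hX0 : (3 : ℝ) ≤ X := by exact_mod_cast hX
  have hA : (0 : ℝ) ≤ (wb + 1 - wa : ℕ) := Nat.cast_nonneg _
  have hQ : (0 : ℝ) ≤ (qb - qa : ℕ) := Nat.cast_nonneg _
  have key : ∀ w ∈ Finset.Icc wa wb, ∑ q ∈ Finset.Ico qa qb,
      tmt F p w (cv2 v q) (frm2 σ a0) (Uni.dg D al) X ≤
      (qb - qa : ℕ) * (X * (4 * γ)) := by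
    intro w hw
    obtain ⟨h1, h2⟩ := Finset.mem_Icc.1 hw
    have kG : CH p (Uni.dg D al) (F.lbr w (cv2 v 0) (frm2 σ a0) qa) ≤
        (D - v : ℕ) * Real.log 2 + Real.log 15 := by
      refine h.lft.CH_G h1 h2 (Z := F.lbr w (cv2 v 0) (frm2 σ a0) qa) ?_
      intro ω ω' _ _ e
      exact frm_a h.inj e
    have k1 := tm_tot (c := cv2 v 0) (M := frm2 σ a0) (X := X) hp (rc_dM h h1 h2)
      (h2.trans hs.wR) hs.RJ hT (by omega) (Finset.Ico qa qb)
      (fun q hq => (Finset.mem_Ico.1 hq).1) kG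
    simp only [cv2_add] at k1
    refine k1.trans ?_
    have e : ((qb - qa : ℕ) : ℝ) * (X * (4 * γ)) = X * (4 * (γ * (qb - qa : ℕ))) := by ring
    rw [e]
    refine mul_le_mul_of_nonneg_left ?_ (by linarith only [hX0])
    have k3 : ((R - w : ℕ) : ℝ) ≤ (R - wa : ℕ) := by
      have : R - w ≤ R - wa := by omega
      exact_mod_cast this
    have k4 : ((R - w : ℕ) : ℝ) * Real.log 2 ≤ γ * (qb - qa : ℕ) * Real.log 2 :=
      mul_le_mul_of_nonneg_right (k3.trans hs.Rq) hl2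
    have k5 : ((D - v : ℕ) : ℝ) * Real.log 2 ≤ γ * (qb - qa : ℕ) * Real.log 2 :=
      mul_le_mul_of_nonneg_right hs.Dq hl2
    have k6 : Real.log 15 ≤ γ * (qb - qa : ℕ) := hl15.trans (hX0.trans hs.Xq)
    have k7 : 0 ≤ γ * (qb - qa : ℕ) := le_trans (by linarith only [hX0]) hs.Xq
    have k8 : γ * (qb - qa : ℕ) * Real.log 2 ≤ γ * (qb - qa : ℕ) * 1 :=
      mul_le_mul_of_nonneg_left hl2' k7
    linarith only [k4, k5, k6, k8]
  have s1 : ∑ x ∈ Finset.Icc wa wb ×ˢ Finset.Ico qa qb,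
      tmt F p x.1 (cv2 v x.2) (frm2 σ a0) (Uni.dg D al) X ≤
      (wb + 1 - wa : ℕ) * ((qb - qa : ℕ) * (X * (4 * γ))) := by
    rw [Finset.sum_product]
    refine (Finset.sum_le_sum key).trans (le_of_eq ?_)
    rw [Finset.sum_const, Nat.card_Icc, nsmul_eq_mul]
  have k := Pool.PC.card_big (Finset.Icc wa wb ×ˢ Finset.Ico qa qb)
    (fun x => tmt F p x.1 (cv2 v x.2) (frm2 σ a0) (Uni.dg D al) X) (δ := ι * X)
    (fun x _ => tmt_nonneg hp) s1 B hB hbad
  refine k.trans (le_of_eq ?_)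
  ring

end bad

/-- **The flat step on a rectangle.** -/
theorem flat_rect : FlatRectStmt := by
  classical
  intro ε ca K ρ hε hca hK hρ
  have hl2 : 0 < Real.log 2 := Real.log_pos (by norm_num)
  have hl2' : Real.log 2 ≤ 1 := by
    have := Real.log_le_sub_one_of_pos (x := 2) (by norm_num)
    linarith
  obtain ⟨κ, hκ⟩ : ∃ κ, κ = min (ε / 8) 1 := ⟨_, rfl⟩
  have hκ0 : 0 < κ := by
    rw [hκ]
    exact lt_min (by positivity) one_pos
  have hκ1 : κ ≤ 1 := by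
    rw [hκ]
    exact min_le_right _ _
  have hκε : κ ≤ ε / 8 := by
    rw [hκ]
    exact min_le_left _ _
  obtain ⟨x₁, ϖ, ε₂, hx₁, hϖ, hε₂, key⟩ := flt_thm (ε / 4) (ca / 2) κ (5 * K + 1) (by positivity)
    (by positivity) hκ0 hκ1 (by positivity)
  refine ⟨x₁, ϖ, ε₂, κ, ε / 48, hx₁, hϖ, hε₂, hκ0, hκ1, by positivity, fun k' => ?_⟩
  obtain ⟨ι, X₀, hι, key⟩ := key k'
  have hcb := cb0_nonneg
  have hca' := cact_nonneg hK
  obtain ⟨n₁, hn₁⟩ := exists_nat_ge (4 * cb0 / (ι * ρ))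
  obtain ⟨n₂, hn₂⟩ := exists_nat_ge ((2 * cact K / (ca * Real.log 2) + 1) / κ)
  obtain ⟨γ, hγ⟩ : ∃ γ, γ = min 1 (ρ * ι / 16) := ⟨_, rfl⟩
  have hγ0 : 0 < γ := by
    rw [hγ]
    exact lt_min one_pos (by positivity)
  have hγ1 : γ ≤ 1 := by
    rw [hγ]
    exact min_le_left _ _
  have hγρ : γ ≤ ρ * ι / 16 := by
    rw [hγ]
    exact min_le_right _ _
  refine ⟨γ, X₀ + n₁ + n₂ + 3, hγ0, hγ1, ?_⟩
  intro J F p σ wa wb v D R a0 al P Pt n N X qa qb hX h hs hT hP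
  have hX3 : 3 ≤ X := by omega
  have hX0 : (0 : ℝ) < X := by exact_mod_cast (by omega : 0 < X)
  have hX1 : (n₁ : ℝ) ≤ X := by exact_mod_cast (by omega : n₁ ≤ X)
  have hX2 : (n₂ : ℝ) ≤ X := by exact_mod_cast (by omega : n₂ ≤ X)
  obtain ⟨B₀, hB₀⟩ : ∃ B₀, B₀ = (Finset.Icc wa wb ×ˢ Finset.Ico qa qb).filter
    (fun x => ι * X ≤ b0t F p x.1 (cv2 v x.2) (frm2 σ a0) X) := ⟨_, rfl⟩
  obtain ⟨B₁, hB₁⟩ : ∃ B₁, B₁ = (Finset.Icc wa wb ×ˢ Finset.Ico qa qb).filter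
    (fun x => ι * X ≤ tmt F p x.1 (cv2 v x.2) (frm2 σ a0) (Uni.dg D al) X) := ⟨_, rfl⟩
  have c0 := card_b0 (ι := ι) (p := p) (σ := σ) (a0 := a0) h.law (by omega) hs B₀
    (by rw [hB₀]; exact Finset.filter_subset _ _)
    (fun x hx => by rw [hB₀] at hx; exact (Finset.mem_filter.1 hx).2)
  have c1 := card_tm (ι := ι) h hT hX3 hs B₁
    (by rw [hB₁]; exact Finset.filter_subset _ _)
    (fun x hx => by rw [hB₁] at hx; exact (Finset.mem_filter.1 hx).2)
  have hA : (0 : ℝ) ≤ (wb + 1 - wa : ℕ) := Nat.cast_nonneg _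
  have hQ : (0 : ℝ) ≤ (qb - qa : ℕ) := Nat.cast_nonneg _
  obtain ⟨A, hAdef⟩ : ∃ A : ℝ, A = (wb + 1 - wa : ℕ) * (qb - qa : ℕ) := ⟨_, rfl⟩
  rw [← hAdef] at c0 c1
  have hA0 : 0 ≤ A := by rw [hAdef]; positivity
  have hιX : 0 < ι * X := by positivity
  have d0 : (B₀.card : ℝ) ≤ ρ / 2 * A := by
    refine le_of_mul_le_mul_right (c0.trans ?_) hιX
    have e1 : cb0 ≤ ρ * (ι * X) / 4 := by
      have := hn₁.trans hX1
      rw [div_le_iff₀ (by positivity)] at this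
      linarith only [this]
    have e2 : (X : ℝ) * (4 * γ * Real.log 2) ≤ ρ * (ι * X) / 4 := by
      have e3 : 4 * γ * Real.log 2 ≤ 4 * (ρ * ι / 16) * 1 := by
        refine mul_le_mul (by linarith only [hγρ]) hl2' hl2.le (by positivity)
      have e4 := mul_le_mul_of_nonneg_left e3 hX0.le
      linarith only [e4]
    have e5 := mul_le_mul_of_nonneg_left (add_le_add e2 e1) hA0
    refine e5.trans (le_of_eq ?_)
    ring
  have d1 : (B₁.card : ℝ) ≤ ρ / 2 * A := by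
    refine le_of_mul_le_mul_right (c1.trans ?_) hιX
    have e2 : (X : ℝ) * (4 * γ) ≤ ρ * (ι * X) / 2 := by
      have e3 : 4 * γ ≤ ρ * ι / 2 := by
        have : 0 < ρ * ι := by positivity
        linarith only [hγ0, hγρ]
      have e4 := mul_le_mul_of_nonneg_left e3 hX0.le
      linarith only [e4]
    have e5 := mul_le_mul_of_nonneg_left e2 hA0
    refine e5.trans (le_of_eq ?_)
    ring
  refine ⟨B₀ ∪ B₁, ?_, ?_, ?_⟩
  · refine Finset.union_subset ?_ ?_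
    · rw [hB₀]
      exact Finset.filter_subset _ _
    · rw [hB₁]
      exact Finset.filter_subset _ _
  · have u1 : ((B₀ ∪ B₁).card : ℝ) ≤ B₀.card + B₁.card := by
      exact_mod_cast Finset.card_union_le _ _
    rw [← hAdef]
    linarith only [d0, d1, u1]
  intro w q h1 h2 h3 h4 hnB hn hN hw
  have hmem : (w, q) ∈ Finset.Icc wa wb ×ˢ Finset.Ico qa qb :=
    Finset.mem_product.2 ⟨Finset.mem_Icc.2 ⟨h1, by omega⟩, Finset.mem_Ico.2 ⟨h3, h4⟩⟩
  have nB0 : b0t F p w (cv2 v q) (frm2 σ a0) X ≤ ι * X := by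
    by_contra hc
    refine hnB (Finset.mem_union_left _ ?_)
    rw [hB₀]
    exact Finset.mem_filter.2 ⟨hmem, (not_le.1 hc).le⟩
  have nB1 : tmt F p w (cv2 v q) (frm2 σ a0) (Uni.dg D al) X ≤ ι * X := by
    by_contra hc
    refine hnB (Finset.mem_union_right _ ?_)
    rw [hB₁]
    exact Finset.mem_filter.2 ⟨hmem, (not_le.1 hc).le⟩
  have fd := fdat (q := q) (X := X) h hP hK h1 h2 hs.wR hs.vD hn hN
  have hcg : 2 * cact K ≤ ca * ⌊κ * X⌋₊ * Real.log 2 := by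
    have e1 := hn₂.trans hX2
    rw [div_le_iff₀ hκ0] at e1
    have e2 : (κ * X : ℝ) < ⌊κ * X⌋₊ + 1 := Nat.lt_floor_add_one _
    have e3 : 2 * cact K / (ca * Real.log 2) ≤ ⌊κ * X⌋₊ := by
      have e4 : (X : ℝ) * κ = κ * X := mul_comm _ _
      linarith only [e1, e2]
    rw [div_le_iff₀ (by positivity)] at e3
    linarith only [e3]
  have fh : FltHyp F p w (cv2 v q) (frm2 σ a0) (sl2 v D a0 al) (Uni.dg D al) Pt X k' x₁ κ ϖ ι ε₂
      (ca / 2) (ε / 48) := by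
    refine ⟨nB1, nB0, hw.tim, ?_, hw.th⟩
    intro E hE
    have a1 := hw.act E hE
    have a2 := act_blb (w := w) (q := q) (rc_ev h hϖ hE) (hP.ev h.law.nonneg E) hK h1 (by omega)
      hs.wR (by omega) (by omega) ⌊κ * X⌋₊
    linarith only [hcg, a1, a2]
  have fc := key J F p w (cv2 v q) (frm2 σ a0) (sl2 v D a0 al) _ P (Uni.dg D al) Pt X (ε / 48)
    (by omega) fd fh
  have hle : ε / 4 + 2 * κ + 6 * (ε / 48) ≤ ε := by linarith only [hκ0, hκε]
  have hXl : 0 ≤ (X : ℝ) * Real.log 2 := by positivity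
  refine ⟨?_, ?_⟩
  · refine le_trans ?_ fc.nu
    have := mul_le_mul_of_nonneg_right (sub_le_sub_left hle 1) hXl
    linarith only [this]
  · refine le_trans ?_ fc.pr
    have := mul_le_mul_of_nonneg_right (sub_le_sub_left hle 2) hXl
    linarith only [this]

end Pool.FLT
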