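import Pool.Agent.H83.UEG.TwoV
import Pool.Agent.H59.PC.TM
import Pool.Agent.H20.S6B.Dpl

/-!
# Flat cells: the two telescopes

Contexts `F.blb w c M` with one constant frame `M`.

* `tm_tot`: two samples with the same line and the same window. The two times and the digits `G` of
  the second exact point are almost independent of the block of the line, for most `q`.
* `b0_tot`: the block of the velocities is almost independent of the block of the positions given
  the exact time, for most `w`.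
-/

set_option autoImplicit false

namespace Pool.FLT

open Finset Real
open Pool.Agent.H49.Ent Pool.Agent.H32.Dense Pool.STK Pool.KA Pool.KSAT Pool.K2S Pool.S6U

section tm

variable {m J : ℕ} {F : Fam m J} {p : F.Ω → ℝ} {Γ : Type} {w R X : ℕ} {c : Fin m → ℕ}
  {M : F.Ω → Fin m → Fin m → ℝ} {G : F.Ω → Γ}

theorem dbl_posw {Ω β : Type} [Fintype Ω] {p : Ω → ℝ} (hp : ∀ ω, 0 ≤ p ω) (b : Ω → β)
    {w : Ω × Ω} (h : 0 < dbl p b w) : 0 < p w.1 ∧ 0 < p w.2 ∧ b w.1 = b w.2 :=
  (glue_pos_iff hp hp w).1 h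

/-- The term (TM). -/
noncomputable def tmt (F : Fam m J) (p : F.Ω → ℝ) (w : ℕ) (c : Fin m → ℕ)
    (M : F.Ω → Fin m → Fin m → ℝ) (G : F.Ω → Γ) (X : ℕ) : ℝ :=
  dp (dbl p (slam F w)) (fun x => (F.T x.1, (G x.2, F.T x.2)))
    (fun x => F.lbr w c M X x.1) (fun x => F.blb w c M x.1)

theorem tmt_nonneg (hp : IsLaw p) : 0 ≤ tmt F p w c M G X :=
  dp_nonneg (Pool.OC.isLaw_dbl hp _).nonneg _ _ _

/-- The label is a function of the line and of the window. -/
theorem det_blb (hM : Det p (slam F w) M) : Det p (slam F w) (F.blb w c M) := by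
  intro ω ω' hω hω' e
  have hM' := hM ω ω' hω hω' e
  have e1 := Prod.ext_iff.mp e
  have e2 := Prod.ext_iff.mp e1.1
  have e3 := Prod.ext_iff.mp e1.2
  have hu : F.u ω = F.u ω' := e2.1
  have hd : F.d ω = F.d ω' := e2.2
  have hZ : F.Z ω = F.Z ω' := e3.1
  have hT : F.T1 w ω = F.T1 w ω' := e3.2
  have e4 : F.x1 w ω = F.x1 w ω' := by
    unfold Fam.x1
    rw [hu, hd, hT]
  refine Box.mlb_mk hT hM' ?_ ?_ hZ
  · unfold Fam.mps
    rw [hM', e4]
  · unfold Fam.mvl
    rw [hM', hd]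

/-- The entropy of the two times and of the digits of the second exact point. -/
theorem CH_two (hp : IsLaw p) (hM : Det p (slam F w) M) (hwR : w ≤ R) (hR : R ≤ J)
    (hT : Det p (F.T1 R) F.T) {e : ℝ} (hG : CH p G (F.blb w c M) ≤ e) :
    CH (dbl p (slam F w)) (fun x => (F.T x.1, (G x.2, F.T x.2))) (fun x => F.blb w c M x.1) ≤
      2 * ((R - w : ℕ) * Real.log 2) + e := by
  have hq := Pool.OC.isLaw_dbl hp (slam F w)
  have h0 := hq.nonneg
  have m1 : Marg (dbl p (slam F w)) p (fun x => x.1) := dbl_fst hp.nonneg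
  have m2 : Marg (dbl p (slam F w)) p (fun x => x.2) := dbl_snd hp.nonneg
  have hb : ∀ x : F.Ω × F.Ω, 0 < dbl p (slam F w) x → F.blb w c M x.1 = F.blb w c M x.2 := by
    intro x hx
    obtain ⟨a1, a2, a3⟩ := dbl_posw hp.nonneg (slam F w) hx
    exact det_blb hM _ _ a1 a2 a3
  have sw : ∀ {S : Type} (f : F.Ω → S), CH (dbl p (slam F w)) (fun x => f x.2)
      (fun x => F.blb w c M x.1) = CH p f (F.blb w c M) := by
    intro S f
    rw [← m2.CH f (F.blb w c M)]
    refine CH_congr h0 (fun _ _ _ _ h => (Prod.ext_iff.mp h).1)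
      (fun _ _ _ _ h => (Prod.ext_iff.mp h).1) ?_ ?_
    · intro x y hx hy h
      have : F.blb w c M x.1 = F.blb w c M y.1 := h
      rw [hb x hx, hb y hy] at this
      exact this
    · intro x y hx hy h
      have : F.blb w c M x.2 = F.blb w c M y.2 := h
      rw [← hb x hx, ← hb y hy] at this
      exact this
  have a1 := CH_subadd h0 (fun x : F.Ω × F.Ω => F.T x.1) (fun x => (G x.2, F.T x.2))
    (fun x => F.blb w c M x.1)
  have a2 := CH_subadd h0 (fun x : F.Ω × F.Ω => G x.2) (fun x => F.T x.2)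
    (fun x => F.blb w c M x.1)
  have a3 : CH (dbl p (slam F w)) (fun x => F.T x.1) (fun x => F.blb w c M x.1) =
      CH p F.T (F.blb w c M) := m1.CH F.T (F.blb w c M)
  have a4 := sw G
  have a5 := sw F.T
  have a6 : CH p F.T (F.blb w c M) ≤ (R - w : ℕ) * Real.log 2 :=
    (CH_mono_cond hp.nonneg fun ω ω' _ _ e => (Box.mlb_ext e).1).trans
      (Pool.UEG.CH_T hp hwR hR hT)
  linarith

/-- **(TM)** on a separated set of velocity scales. -/
theorem tm_tot (hp : IsLaw p) (hM : Det p (slam F w) M) (hwR : w ≤ R) (hR : R ≤ J)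
    (hT : Det p (F.T1 R) F.T) (hX : 0 < X) {q₀ : ℕ} (S : Finset ℕ) (hS : ∀ q ∈ S, q₀ ≤ q)
    {e : ℝ} (hG : CH p G (F.lbr w c M q₀) ≤ e) :
    ∑ q ∈ S, tmt F p w (fun i => c i + q) M G X ≤ X * (2 * ((R - w : ℕ) * Real.log 2) + e) := by
  have hq := Pool.OC.isLaw_dbl hp (slam F w)
  have h0 := hq.nonneg
  have key := Pool.PC.lbr_tot (F := F.ext (dbl p (slam F w)) hq (fun x => x.1))
    (M := fun x => M x.1) (w := w) (c := c) (X := X) hq
    (fun x : F.Ω × F.Ω => (F.T x.1, (G x.2, F.T x.2))) (fun _ => ()) hX S hS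
  have k2 := CH_two (c := fun i => c i + q₀) hp hM hwR hR hT hG
  have k3 : CH (dbl p (slam F w)) (fun x : F.Ω × F.Ω => (F.T x.1, (G x.2, F.T x.2)))
      (fun x => (F.lbr w c M q₀ x.1, ())) ≤ 2 * ((R - w : ℕ) * Real.log 2) + e := by
    refine le_trans (CH_mono_cond h0 ?_) k2
    intro x y _ _ h
    exact (Prod.ext_iff.mp h).1
  refine le_trans (Finset.sum_le_sum fun q _ => le_of_eq ?_)
    (key.trans (mul_le_mul_of_nonneg_left k3 (Nat.cast_nonneg _)))
  unfold tmt
  have e1 : (fun x : F.Ω × F.Ω => F.lbr w (fun i => c i + q) M X x.1) =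
      fun x => F.lbr w c M (q + X) x.1 := by
    rw [Pool.PC.lbr_add]
  rw [e1]
  refine dp_congr_cond h0 ?_ ?_
  · intro x y _ _ h
    exact Prod.ext h rfl
  · intro x y _ _ h
    exact (Prod.ext_iff.mp h).1

end tm

end Pool.FLT
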