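import Pool.Agent.H48.PC.FltA

/-!
# Flat cells: the telescope over the windows, the bad contexts
-/

set_option autoImplicit false

namespace Pool.FLT

open Finset Real
open Pool.Agent.H49.Ent Pool.Agent.H32.Dense Pool.STK Pool.KA Pool.KSAT Pool.K2S Pool.S6U

section b0

variable {J : ℕ} {F : Fam 2 J} {p : F.Ω → ℝ} {w X : ℕ} {c : Fin 2 → ℕ}
  {M : F.Ω → Fin 2 → Fin 2 → ℝ}

/-- The block of the velocities. -/
noncomputable def vlp (F : Fam 2 J) (c : Fin 2 → ℕ) (M : F.Ω → Fin 2 → Fin 2 → ℝ) (X : ℕ)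
    (ω : F.Ω) : ℤ × ℤ :=
  (Uni.dg X (fun ω => F.md c M ω 0) ω, Uni.dg X (fun ω => F.md c M ω 1) ω)

/-- The block of the positions. -/
noncomputable def psp (F : Fam 2 J) (w : ℕ) (c : Fin 2 → ℕ) (M : F.Ω → Fin 2 → Fin 2 → ℝ)
    (X : ℕ) (ω : F.Ω) : ℤ × ℤ :=
  (Uni.dg X (fun ω => F.mx w c M ω 0) ω, Uni.dg X (fun ω => F.mx w c M ω 1) ω)

/-- The term (B0). -/
noncomputable def b0t (F : Fam 2 J) (p : F.Ω → ℝ) (w : ℕ) (c : Fin 2 → ℕ)
    (M : F.Ω → Fin 2 → Fin 2 → ℝ) (X : ℕ) : ℝ :=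
  dp p (vlp F c M X) (psp F w c M X) (fun ω => (F.blb w c M ω, F.T ω))

theorem b0t_nonneg (hp : IsLaw p) : 0 ≤ b0t F p w c M X := dp_nonneg hp.nonneg _ _ _

/-- The constant of one step. -/
noncomputable def cb0 : ℝ := 2 * Real.log 7 + 2 * (2 * Real.log 11)

theorem cb0_nonneg : 0 ≤ cb0 := by
  have h1 : 0 ≤ Real.log 7 := Real.log_nonneg (by norm_num)
  have h2 : 0 ≤ Real.log 11 := Real.log_nonneg (by norm_num)
  unfold cb0
  linarith

/-- The entropy of the block of the velocities. -/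
theorem CH_vlp {S : Type} (hp : IsLaw p) (W : F.Ω → S) :
    CH p (vlp F c M X) W ≤ 2 * (X * Real.log 2 + 2 * Real.log 2) := by
  have key := Pool.S6B20.CH_vbl (c' := 1) (F := F) (c := c) (M := M) (X := X) hp W
  have h1 : CH p (vlp F c M X) W ≤
      CH p (Pool.DPL.vbl X (Pool.S6B20.bom (c' := 1) F c M) (Pool.S6B20.bbe (c' := 1) F c M)) W := by
    refine CH_mono_left hp.nonneg ?_
    intro ω ω' _ _ h
    have e1 := Prod.ext_iff.mp (Prod.ext_iff.mp h).1
    exact Prod.ext e1.1 (congrFun e1.2 0)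
  have h2 : Real.log (2 * 2 ^ X + 1) ≤ X * Real.log 2 + 2 * Real.log 2 := by
    have e : (X : ℝ) * Real.log 2 + 2 * Real.log 2 = Real.log (2 ^ X * 2 ^ 2) := by
      rw [Real.log_mul (by positivity) (by positivity), Real.log_pow, Real.log_pow]
      push_cast
      ring
    rw [e]
    have hX : (1 : ℝ) ≤ 2 ^ X := one_le_pow₀ (by norm_num)
    exact Real.log_le_log (by positivity) (by nlinarith)
  push_cast at key
  linarith

/-- **(B0)** on a separated set of windows. -/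
theorem b0_sep (hp : IsLaw p) (S : Finset ℕ) (hS : ∀ w ∈ S, w ≤ J) (hne : S.Nonempty)
    (hsep : ∀ x ∈ S, ∀ y ∈ S, x < y → x + X ≤ y) :
    ∑ w ∈ S, b0t F p w c M X ≤ 2 * (X * Real.log 2 + 2 * Real.log 2) + cb0 * S.card := by
  have h0 := hp.nonneg
  obtain ⟨w, h1, h2, h3⟩ := H23.enum_asc X S hne hsep
  rw [← h3 (fun w => b0t F p w c M X)]
  have key := Pool.S6B20.x_tel0 (F := F) (c := c) (M := M) (X := X) hp S.card w h2
    (fun j _ => hS _ (h1 j)) (vlp F c M X)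
  have k1 := CH_vlp (c := c) (M := M) (X := X) hp (fun ω => (F.blb (w 0) c M ω, F.T ω))
  have e1 : ((2 : ℕ) : ℝ) * Real.log 7 + 2 * (((2 : ℕ) : ℝ) * Real.log (4 * ((2 : ℕ) : ℝ) + 3)) =
      cb0 := by
    unfold cb0
    norm_num
  rw [e1] at key
  have k2 : ∀ j, b0t F p (w j) c M X ≤ dp p (vlp F c M X) (Pool.S6B20.dgx F (w j) c M X)
      (fun ω => (F.blb (w j) c M ω, F.T ω)) := by
    intro j
    refine dp_mono h0 (fun _ _ _ _ h => (Prod.ext_iff.mp h).1) ?_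
    intro ω ω' _ _ h
    have e2 := (Prod.ext_iff.mp h).1
    exact Prod.ext (congrFun e2 0) (congrFun e2 1)
  refine (Finset.sum_le_sum fun j _ => k2 j).trans (key.trans ?_)
  linarith

/-- **(B0)** on any set of windows. -/
theorem b0_tot (hp : IsLaw p) (hX : 0 < X) (S : Finset ℕ) (hS : ∀ w ∈ S, w ≤ J) :
    ∑ w ∈ S, b0t F p w c M X ≤
      X * (2 * (X * Real.log 2 + 2 * Real.log 2)) + cb0 * S.card := by
  have hl2 : 0 ≤ Real.log 2 := Real.log_nonneg (by norm_num)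
  exact H23.sum_class (fun w => b0t F p w c M X) S X hX (by positivity)
    (fun S' hS' hne hsep => b0_sep hp S' (fun w hw => hS w (hS' hw)) hne hsep)

end b0

end Pool.FLT
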