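import Pool.Agent.H48.PC.FltB
import Pool.Agent.H68.KG.FltS
import Pool.Agent.H17.UEG.Cot
import Pool.Agent.H54.PC.BoxDefs

/-!
# Flat cells: the data of the exact points

`PtD`: the exact point `Pt` determines the time, the own slope `al`, the own velocity across the
own slope and the position. `fdat`: the data of the flat step at a context. `act_blb`: the activity
given the exact point and the context.
-/

set_option autoImplicit false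

namespace Pool.FLT

open Finset Real
open Pool.Agent.H49.Ent Pool.Agent.H32.Dense Pool.STK Pool.KA Pool.KSAT Pool.K2S Pool.S6U
open Pool.UEG Pool.KG

variable {J : ℕ}

/-- The data of the exact points on a flat cell. `F` is the family with the time of resolution
`R`; `n`: the precision of the own velocity, `N`: the precision of the position. -/
structure PtD (F : Fam 2 J) (p : F.Ω → ℝ) (σ : Fin 2 → Fin 2) (al : F.Ω → ℝ) {P : Type}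
    (Pt : F.Ω → P) (R n N : ℕ) (K : ℝ) : Prop where
  dal : Det p Pt al
  dT : Det p Pt F.T
  dZ : Det p Pt F.Z
  bd : ∀ ω, 0 < p ω → |al ω| ≤ 1
  pos : ∃ (xe : F.Ω → Fin 2 → ℝ) (τ : F.Ω → ℝ), Det p Pt (fun ω => (xe ω, τ ω)) ∧
    ∀ ω, 0 < p ω → |τ ω| ≤ 1 / 2 ^ R ∧ ∀ i, |F.x ω i - (xe ω i - τ ω * F.d ω i)| ≤ K / 2 ^ N
  str : ∃ ν : F.Ω → ℝ, Det p Pt ν ∧ ∀ ω, 0 < p ω →
    |F.d ω (σ 1) - al ω * F.d ω (σ 0) - ν ω| ≤ K / 2 ^ n

theorem PtD.ev {F : Fam 2 J} {p : F.Ω → ℝ} {σ : Fin 2 → Fin 2} {al : F.Ω → ℝ} {P : Type}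
    {Pt : F.Ω → P} {R n N : ℕ} {K : ℝ} (h : PtD F p σ al Pt R n N K) (hp : ∀ ω, 0 ≤ p ω)
    (E : F.Ω → Prop) : PtD F (Pool.Agent.H49.Ent.cond p E True) σ al Pt R n N K := by
  obtain ⟨xe, τ, h1, h2⟩ := h.pos
  obtain ⟨ν, h3, h4⟩ := h.str
  exact ⟨det_ev hp h.dal, det_ev hp h.dT, det_ev hp h.dZ,
    fun ω hω => h.bd ω ((ev_pos hp).1 hω).1,
    ⟨xe, τ, det_ev hp h1, fun ω hω => h2 ω ((ev_pos hp).1 hω).1⟩,
    ⟨ν, det_ev hp h3, fun ω hω => h4 ω ((ev_pos hp).1 hω).1⟩⟩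

theorem rc_ev {F : Fam 2 J} {p : F.Ω → ℝ} {σ : Fin 2 → Fin 2} {wa wb : ℕ} {vp : ℕ → ℕ} {D : ℕ}
    {a : ℕ → F.Ω → ℝ} {al : F.Ω → ℝ} (h : Rc2 F p σ wa wb vp D a al) {ϖ : ℝ} (hϖ : 0 < ϖ)
    {E : F.Ω → Prop} (hE : ϖ ≤ Pe p E) :
    Rc2 F (Pool.Agent.H49.Ent.cond p E True) σ wa wb vp D a al :=
  ⟨ev_law h.law hϖ hE, h.inj, h.wJ, h.mono, h.vD,
    fun w h1 h2 ω hω => h.near w h1 h2 ω ((ev_pos h.law.nonneg).1 hω).1,
    fun w h1 h2 ω hω => h.grid w h1 h2 ω ((ev_pos h.law.nonneg).1 hω).1,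
    fun w h1 h2 => det_ev h.law.nonneg (h.det w h1 h2)⟩

section flat

variable {F : Fam 2 J} {p : F.Ω → ℝ} {σ : Fin 2 → Fin 2} {wa wb v D R n N : ℕ} {a0 al : F.Ω → ℝ}
  {P : Type} {Pt : F.Ω → P} {K : ℝ} {w q X : ℕ}

theorem frm_a (hσ : Function.Injective σ) {c : Fin 2 → ℕ} {ω ω' : F.Ω}
    (h : F.blb w c (frm2 σ a0) ω = F.blb w c (frm2 σ a0) ω') : a0 ω = a0 ω' :=
  tfr2_eq hσ (Box.mlb_ext h).2.1

theorem rc_dM (h : Rc2 F p σ wa wb (fun _ => v) D (fun _ => a0) al) (h1 : wa ≤ w) (h2 : w ≤ wb) :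
    Det p (slam F w) (frm2 σ a0) := by
  intro ω ω' hω hω' e
  have h3 : a0 ω = a0 ω' := h.det w h1 h2 ω ω' hω hω' e
  show tfr2 σ (a0 ω) = tfr2 σ (a0 ω')
  rw [h3]

theorem ald_near (D : ℕ) (al : F.Ω → ℝ) (ω : F.Ω) :
    |(Uni.dg D al ω : ℝ) / 2 ^ D - al ω| ≤ 1 / 2 ^ D :=
  Pool.S6U.dg_near (F := lft F) D al ω

theorem rc_sl4 (h : Rc2 F p σ wa wb (fun _ => v) D (fun _ => a0) al) (h1 : wa ≤ w) (h2 : w ≤ wb)
    {ω : F.Ω} (hω : 0 < p ω) : |sl2 v D a0 al ω| ≤ 4 := by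
  have k1 : |al ω - a0 ω| ≤ 3 / 2 ^ v := h.near w h1 h2 ω hω
  have k2 := ald_near D al ω
  have k3 : (1 : ℝ) / 2 ^ D ≤ 1 / 2 ^ v := pw_le (h.vD w h1 h2) (zero_le_one (α := ℝ))
  have k4 : |(Uni.dg D al ω : ℝ) / 2 ^ D - a0 ω| ≤ 4 / 2 ^ v := by
    have e : (4 : ℝ) / 2 ^ v = 1 / 2 ^ v + 3 / 2 ^ v := by ring
    have e2 : (Uni.dg D al ω : ℝ) / 2 ^ D - a0 ω =
        ((Uni.dg D al ω : ℝ) / 2 ^ D - al ω) + (al ω - a0 ω) := by ring
    rw [e, e2]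
    refine (abs_add_le _ _).trans ?_
    linarith only [k1, k2, k3]
  unfold sl2
  rw [abs_mul, abs_of_pos (by positivity : (0 : ℝ) < 2 ^ v)]
  calc (2 : ℝ) ^ v * |(Uni.dg D al ω : ℝ) / 2 ^ D - a0 ω| ≤ 2 ^ v * (4 / 2 ^ v) :=
        mul_le_mul_of_nonneg_left k4 (by positivity)
    _ = 4 := by field_simp

theorem rc_a4 (h : Rc2 F p σ wa wb (fun _ => v) D (fun _ => a0) al)
    (hP : PtD F p σ al Pt R n N K) (h1 : wa ≤ w) (h2 : w ≤ wb) {ω : F.Ω} (hω : 0 < p ω) :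
    |a0 ω| ≤ 4 := by
  have k1 : |al ω - a0 ω| ≤ 3 / 2 ^ v := h.near w h1 h2 ω hω
  have k2 := hP.bd ω hω
  have k3 : (3 : ℝ) / 2 ^ v ≤ 3 := by
    rw [div_le_iff₀ (by positivity)]
    have : (1 : ℝ) ≤ 2 ^ v := one_le_pow₀ (by norm_num)
    linarith only [this]
  rw [abs_le] at k1 k2 ⊢
  constructor <;> linarith only [k1, k2, k3]

/-- Multiplication of an error. -/
theorem err_le {x K : ℝ} {m n X : ℕ} (hK : 0 ≤ K) (h : |x| ≤ K / 2 ^ n) (hmn : m + X ≤ n) :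
    |2 ^ m * x| ≤ K / 2 ^ X := by
  rw [abs_mul, abs_of_pos (by positivity : (0 : ℝ) < 2 ^ m)]
  calc (2 : ℝ) ^ m * |x| ≤ 2 ^ m * (K / 2 ^ n) := mul_le_mul_of_nonneg_left h (by positivity)
    _ ≤ 2 ^ m * (K / 2 ^ (m + X)) := by
        refine mul_le_mul_of_nonneg_left ?_ (by positivity)
        exact div_le_div_of_nonneg_left hK (by positivity)
          (pow_le_pow_right₀ (by norm_num) hmn)
    _ = K / 2 ^ X := by
        rw [pow_add]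
        field_simp

/-- **The data of the flat step.** -/
theorem fdat (h : Rc2 F p σ wa wb (fun _ => v) D (fun _ => a0) al)
    (hP : PtD F p σ al Pt R n N K) (hK : 0 ≤ K) (h1 : wa ≤ w) (h2 : w + X ≤ wb) (hR : wb ≤ R)
    (hD : v + X ≤ D) (hn : v + q + X ≤ n) (hN : v + q + w + X ≤ N) :
    FltDat F p w (cv2 v q) (frm2 σ a0) (sl2 v D a0 al) (Uni.dg D al) Pt X (5 * K + 1) := by
  have hw2 : w ≤ wb := by omega
  have hwJ : w ≤ J := hw2.trans h.wJ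
  have hσ := h.inj
  obtain ⟨xe, τ, hxd, hx⟩ := hP.pos
  obtain ⟨ν, hνd, hν⟩ := hP.str
  refine ⟨h.law, rc_dM h h1 hw2, ?_, fun ω hω => rc_sl4 h h1 hw2 hω, ?_, ?_⟩
  · intro ω ω' _ _ e
    have e1 := Prod.ext_iff.mp e
    have e2 := frm_a hσ e1.1
    have e3 : Uni.dg D al ω = Uni.dg D al ω' := e1.2
    unfold sl2
    rw [e2, e3]
  · intro ω ω' hω hω' e
    have e1 := (Prod.ext_iff.mp e).1
    have e2 : al ω = al ω' := hP.dal ω ω' hω hω' e1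
    refine Prod.ext ?_ (hP.dT ω ω' hω hω' e1)
    show ⌊(2 : ℝ) ^ D * al ω⌋ = ⌊(2 : ℝ) ^ D * al ω'⌋
    rw [e2]
  obtain ⟨c, hc⟩ : ∃ c, c = cv2 v q := ⟨_, rfl⟩
  obtain ⟨M, hM⟩ : ∃ M, M = frm2 (F := F) σ a0 := ⟨_, rfl⟩
  rw [← hc, ← hM]
  have c0 : c 0 = q := by rw [hc]; rfl
  have c1 : c 1 = v + q := by rw [hc]; rfl
  have m0 : ∀ (ω : F.Ω) (x : Fin 2 → ℝ), mco (M ω) x 0 = x (σ 0) := fun ω x => by
    rw [hM]
    exact mco2_0 σ (a0 ω) x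
  have m1 : ∀ (ω : F.Ω) (x : Fin 2 → ℝ), mco (M ω) x 1 = x (σ 1) - a0 ω * x (σ 0) := fun ω x => by
    rw [hM]
    exact mco2_1 σ (a0 ω) x
  refine ⟨fun ω => 2 ^ (q + w) * xe ω (σ 0) - 2 ^ w * τ ω * F.mvl c M ω 0 - F.mkn w c M ω 0,
    fun ω => 2 ^ (v + q + w) * (xe ω (σ 1) - a0 ω * xe ω (σ 0)) -
      2 ^ w * τ ω * F.mvl c M ω 1 - F.mkn w c M ω 1,
    fun ω => 2 ^ (v + q) * ν ω + 2 ^ v * (al ω - (Uni.dg D al ω : ℝ) / 2 ^ D) * F.mvl c M ω 0 -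
      F.mvl c M ω 1 + sl2 v D a0 al ω * F.mvl c M ω 0, ?_, ?_⟩
  · intro ω ω' hω hω' e
    have e1 := Prod.ext_iff.mp e
    have eP : Pt ω = Pt ω' := e1.1
    have eb : F.blb w c M ω = F.blb w c M ω' := e1.2
    have ea : a0 ω = a0 ω' := by
      rw [hM] at eb
      exact frm_a hσ eb
    have eal : al ω = al ω' := hP.dal ω ω' hω hω' eP
    have eT : F.T ω = F.T ω' := hP.dT ω ω' hω hω' eP
    have ex := Prod.ext_iff.mp (hxd ω ω' hω hω' eP)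
    have e2 : xe ω = xe ω' := ex.1
    have e3 : τ ω = τ ω' := ex.2
    have eν : ν ω = ν ω' := hνd ω ω' hω hω' eP
    have ev : F.mvl c M ω = F.mvl c M ω' := (Box.mlb_ext eb).2.2.2.1
    have ek : F.mkn w c M ω = F.mkn w c M ω' := Box.mkn_det eb eT
    have ed : Uni.dg D al ω = Uni.dg D al ω' := by
      show ⌊(2 : ℝ) ^ D * al ω⌋ = ⌊(2 : ℝ) ^ D * al ω'⌋
      rw [eal]
    have es : sl2 v D a0 al ω = sl2 v D a0 al ω' := by
      unfold sl2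
      rw [ed, ea]
    simp only [e2, e3, ev, ek, ea, eν, eal, ed, es]
  intro ω hω
  obtain ⟨t1, t2⟩ := hx ω hω
  have t3 := hν ω hω
  have t4 := rc_a4 h hP h1 hw2 hω
  have hX2 : (0 : ℝ) < 2 ^ X := by positivity
  have p0 := Box.pos_eq F hwJ c M ω 0
  have p1 := Box.pos_eq F hwJ c M ω 1
  have v0 := Box.mvl_add F c M ω 0
  have v1 := Box.mvl_add F c M ω 1
  rw [m0, c0] at p0 v0
  rw [m1, c1] at p1 v1
  have d0 := Box.md_mem F c M ω 0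
  have d1 := Box.md_mem F c M ω 1
  have hτ : |2 ^ w * τ ω| ≤ 1 / 2 ^ X := err_le zero_le_one t1 (by omega)
  have tmul : ∀ y : ℝ, 0 ≤ y ∧ y < 1 → |2 ^ w * τ ω * y| ≤ 1 / 2 ^ X := by
    intro y hy
    rw [abs_mul, abs_of_nonneg hy.1]
    calc |2 ^ w * τ ω| * y ≤ 1 / 2 ^ X * 1 :=
          mul_le_mul hτ hy.2.le hy.1 (by positivity)
      _ = 1 / 2 ^ X := mul_one _
  refine ⟨?_, ?_, ?_⟩
  · have e0 : |2 ^ (q + w) * (F.x ω (σ 0) - (xe ω (σ 0) - τ ω * F.d ω (σ 0)))| ≤ K / 2 ^ X :=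
      err_le hK (t2 (σ 0)) (by omega)
    have e1 := tmul _ d0
    have e2 : F.mx w c M ω 0 -
        (2 ^ (q + w) * xe ω (σ 0) - 2 ^ w * τ ω * F.mvl c M ω 0 - F.mkn w c M ω 0) =
        2 ^ (q + w) * (F.x ω (σ 0) - (xe ω (σ 0) - τ ω * F.d ω (σ 0))) -
          2 ^ w * τ ω * F.md c M ω 0 := by
      have e3 : F.mx w c M ω 0 = 2 ^ (q + w) * F.x ω (σ 0) - F.mkn w c M ω 0 := by linarith only [p0]
      have e4 : F.md c M ω 0 = 2 ^ q * F.d ω (σ 0) - F.mvl c M ω 0 := by linarith only [v0]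
      rw [e3, e4, pow_add]
      ring
    have e3 : |F.mx w c M ω 0 -
        (2 ^ (q + w) * xe ω (σ 0) - 2 ^ w * τ ω * F.mvl c M ω 0 - F.mkn w c M ω 0)| ≤
        (K + 1) / 2 ^ X := by
      rw [e2, add_div]
      exact (abs_sub _ _).trans (add_le_add e0 e1)
    have e4 := mul_le_mul_of_nonneg_right e3 hX2.le
    rw [div_mul_cancel₀ _ hX2.ne'] at e4
    exact e4.trans (by linarith only [hK])
  · have e0 : |2 ^ (v + q + w) * (F.x ω (σ 1) - (xe ω (σ 1) - τ ω * F.d ω (σ 1)))| ≤ K / 2 ^ X :=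
      err_le hK (t2 (σ 1)) (by omega)
    have e0' : |2 ^ (v + q + w) * (F.x ω (σ 0) - (xe ω (σ 0) - τ ω * F.d ω (σ 0)))| ≤
        K / 2 ^ X := err_le hK (t2 (σ 0)) (by omega)
    have e0'' : |a0 ω * (2 ^ (v + q + w) * (F.x ω (σ 0) - (xe ω (σ 0) - τ ω * F.d ω (σ 0))))| ≤
        4 * (K / 2 ^ X) := by
      rw [abs_mul]
      exact mul_le_mul t4 e0' (abs_nonneg _) (by norm_num)
    have e1 := tmul _ d1
    have e2 : F.mx w c M ω 1 - (2 ^ (v + q + w) * (xe ω (σ 1) - a0 ω * xe ω (σ 0)) -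
        2 ^ w * τ ω * F.mvl c M ω 1 - F.mkn w c M ω 1) =
        2 ^ (v + q + w) * (F.x ω (σ 1) - (xe ω (σ 1) - τ ω * F.d ω (σ 1))) -
          a0 ω * (2 ^ (v + q + w) * (F.x ω (σ 0) - (xe ω (σ 0) - τ ω * F.d ω (σ 0)))) -
          2 ^ w * τ ω * F.md c M ω 1 := by
      have e3 : F.mx w c M ω 1 =
          2 ^ (v + q + w) * (F.x ω (σ 1) - a0 ω * F.x ω (σ 0)) - F.mkn w c M ω 1 := by linarith only [p1]
      have e4 : F.md c M ω 1 = 2 ^ (v + q) * (F.d ω (σ 1) - a0 ω * F.d ω (σ 0)) -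
          F.mvl c M ω 1 := by linarith only [v1]
      rw [e3, e4, pow_add 2 (v + q) w]
      ring
    have e3 : |F.mx w c M ω 1 - (2 ^ (v + q + w) * (xe ω (σ 1) - a0 ω * xe ω (σ 0)) -
        2 ^ w * τ ω * F.mvl c M ω 1 - F.mkn w c M ω 1)| ≤ (5 * K + 1) / 2 ^ X := by
      rw [e2]
      have e5 : (5 * K + 1) / 2 ^ X = K / 2 ^ X + 4 * (K / 2 ^ X) + 1 / 2 ^ X := by ring
      rw [e5]
      exact (abs_sub _ _).trans (add_le_add ((abs_sub _ _).trans (add_le_add e0 e0'')) e1)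
    have e4 := mul_le_mul_of_nonneg_right e3 hX2.le
    rw [div_mul_cancel₀ _ hX2.ne'] at e4
    exact e4
  · have e0 : |2 ^ (v + q) * (F.d ω (σ 1) - al ω * F.d ω (σ 0) - ν ω)| ≤ K / 2 ^ X :=
      err_le hK t3 (by omega)
    have k2 := ald_near D al ω
    have e1 : |2 ^ v * ((Uni.dg D al ω : ℝ) / 2 ^ D - al ω)| ≤ 1 / 2 ^ X :=
      err_le zero_le_one k2 hD
    have e1' : |2 ^ v * ((Uni.dg D al ω : ℝ) / 2 ^ D - al ω) * F.md c M ω 0| ≤ 1 / 2 ^ X := by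
      rw [abs_mul, abs_of_nonneg d0.1]
      calc |2 ^ v * ((Uni.dg D al ω : ℝ) / 2 ^ D - al ω)| * F.md c M ω 0 ≤ 1 / 2 ^ X * 1 :=
            mul_le_mul e1 d0.2.le d0.1 (by positivity)
        _ = 1 / 2 ^ X := mul_one _
    have e2 : F.md c M ω 1 - sl2 v D a0 al ω * F.md c M ω 0 -
        (2 ^ (v + q) * ν ω + 2 ^ v * (al ω - (Uni.dg D al ω : ℝ) / 2 ^ D) * F.mvl c M ω 0 -
          F.mvl c M ω 1 + sl2 v D a0 al ω * F.mvl c M ω 0) =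
        2 ^ (v + q) * (F.d ω (σ 1) - al ω * F.d ω (σ 0) - ν ω) -
          2 ^ v * ((Uni.dg D al ω : ℝ) / 2 ^ D - al ω) * F.md c M ω 0 := by
      have e4 : F.md c M ω 1 = 2 ^ (v + q) * (F.d ω (σ 1) - a0 ω * F.d ω (σ 0)) -
          F.mvl c M ω 1 := by linarith only [v1]
      have e5 : F.md c M ω 0 = 2 ^ q * F.d ω (σ 0) - F.mvl c M ω 0 := by linarith only [v0]
      unfold sl2
      rw [e4, e5, pow_add 2 v q]
      ring
    have e3 : |F.md c M ω 1 - sl2 v D a0 al ω * F.md c M ω 0 -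
        (2 ^ (v + q) * ν ω + 2 ^ v * (al ω - (Uni.dg D al ω : ℝ) / 2 ^ D) * F.mvl c M ω 0 -
          F.mvl c M ω 1 + sl2 v D a0 al ω * F.mvl c M ω 0)| ≤ (K + 1) / 2 ^ X := by
      rw [e2, add_div]
      exact (abs_sub _ _).trans (add_le_add e0 e1')
    have e4 := mul_le_mul_of_nonneg_right e3 hX2.le
    rw [div_mul_cancel₀ _ hX2.ne'] at e4
    exact e4.trans (by linarith only [hK])

/-- The constant of `act_blb`. -/
noncomputable def cact (K : ℝ) : ℝ :=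
  Real.log 17 + 2 * ((2 : ℕ) * Real.log (2 * (2 * (12 * K + 3)) + 3))

theorem cact_nonneg (hK : 0 ≤ K) : 0 ≤ cact K := by
  have h1 : 0 ≤ Real.log 17 := Real.log_nonneg (by norm_num)
  have h2 : 0 ≤ Real.log (2 * (2 * (12 * K + 3)) + 3) := Real.log_nonneg (by linarith only [hK])
  unfold cact
  positivity

/-- The context is a function of the exact point and of the digits of the velocity, up to a bounded
number of values. -/
theorem CH_blb_pt (h : Rc2 F p σ wa wb (fun _ => v) D (fun _ => a0) al)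
    (hP : PtD F p σ al Pt R n N K) (hK : 0 ≤ K) (h1 : wa ≤ w) (h2 : w ≤ wb) (hR : wb ≤ R)
    (hn : v + q ≤ n) (hN : v + q + w ≤ N) :
    CH p (F.blb w (cv2 v q) (frm2 σ a0)) (fun ω => (Pt ω, ⌊(2 : ℝ) ^ q * F.d ω (σ 0)⌋)) ≤
      cact K := by
  have hp := h.law
  have h0 := hp.nonneg
  have hwJ : w ≤ J := h2.trans h.wJ
  have hσ := h.inj
  obtain ⟨xe, τ, hxd, hx⟩ := hP.pos
  obtain ⟨ν, hνd, hν⟩ := hP.str
  obtain ⟨Z, hZ⟩ : ∃ Z, Z = fun ω => (Pt ω, ⌊(2 : ℝ) ^ q * F.d ω (σ 0)⌋) := ⟨_, rfl⟩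
  rw [← hZ]
  have hZP : ∀ ω ω', Z ω = Z ω' → Pt ω = Pt ω' ∧
      ⌊(2 : ℝ) ^ q * F.d ω (σ 0)⌋ = ⌊(2 : ℝ) ^ q * F.d ω' (σ 0)⌋ := by
    intro ω ω' e
    rw [hZ] at e
    exact Prod.ext_iff.mp e
  have s1 : CH p a0 Z ≤ Real.log 17 := by
    refine h.lft.CH_a h1 h2 (Z := Z) ?_
    intro ω ω' hω hω' e
    have e2 : al ω = al ω' := hP.dal ω ω' hω hω' (hZP ω ω' e).1
    show ⌊(2 : ℝ) ^ D * al ω⌋ = ⌊(2 : ℝ) ^ D * al ω'⌋
    rw [e2]
  obtain ⟨c, hc⟩ : ∃ c, c = cv2 v q := ⟨_, rfl⟩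
  obtain ⟨M, hM⟩ : ∃ M, M = frm2 (F := F) σ a0 := ⟨_, rfl⟩
  rw [← hc, ← hM]
  have c0 : c 0 = q := by rw [hc]; rfl
  have c1 : c 1 = v + q := by rw [hc]; rfl
  have m0 : ∀ (ω : F.Ω) (x : Fin 2 → ℝ), mco (M ω) x 0 = x (σ 0) := fun ω x => by
    rw [hM]
    exact mco2_0 σ (a0 ω) x
  have m1 : ∀ (ω : F.Ω) (x : Fin 2 → ℝ), mco (M ω) x 1 = x (σ 1) - a0 ω * x (σ 0) := fun ω x => by
    rw [hM]
    exact mco2_1 σ (a0 ω) x
  have s2 : CH p (F.blb w c M) (fun ω => (a0 ω, Z ω)) ≤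
      2 * ((2 : ℕ) * Real.log (2 * (2 * (12 * K + 3)) + 3)) := by
    refine Box.CH_of_nr (F := F) (g := w) (k := fun i => c i + w) (c := c) (M := M) hp
      (fun ω => (a0 ω, Z ω)) ?_
    intro ω ω' hω hω' e
    have e1 := Prod.ext_iff.mp e
    have ea : a0 ω = a0 ω' := e1.1
    obtain ⟨eP, ef⟩ := hZP ω ω' e1.2
    have eal : al ω = al ω' := hP.dal ω ω' hω hω' eP
    have eT : F.T ω = F.T ω' := hP.dT ω ω' hω hω' eP
    have ex := Prod.ext_iff.mp (hxd ω ω' hω hω' eP)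
    have exe : xe ω = xe ω' := ex.1
    have eτ : τ ω = τ ω' := ex.2
    have eν : ν ω = ν ω' := hνd ω ω' hω hω' eP
    have eM : M ω = M ω' := by
      rw [hM]
      show tfr2 σ (a0 ω) = tfr2 σ (a0 ω')
      rw [ea]
    have et : F.t ω = F.t ω' := by
      unfold Fam.t
      rw [eT]
    have dd0 : |F.d ω (σ 0) - F.d ω' (σ 0)| ≤ 1 / 2 ^ q := Box.near_of_floor ef
    have na : |al ω - a0 ω| ≤ 3 / 2 ^ v := h.near w h1 h2 ω hω
    have n1 := hν ω hω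
    have n2 := hν ω' hω'
    rw [← eal, ← eν] at n2
    have pn : K / (2 : ℝ) ^ n ≤ K / 2 ^ (v + q) :=
      div_le_div_of_nonneg_left hK (by positivity) (pow_le_pow_right₀ (by norm_num) hn)
    have dd1 : |F.d ω (σ 1) - a0 ω * F.d ω (σ 0) - (F.d ω' (σ 1) - a0 ω * F.d ω' (σ 0))| ≤
        (2 * K + 3) / 2 ^ (v + q) := by
      have e2 : F.d ω (σ 1) - a0 ω * F.d ω (σ 0) - (F.d ω' (σ 1) - a0 ω * F.d ω' (σ 0)) =
          (F.d ω (σ 1) - al ω * F.d ω (σ 0) - ν ω) -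
            (F.d ω' (σ 1) - al ω * F.d ω' (σ 0) - ν ω) +
            (al ω - a0 ω) * (F.d ω (σ 0) - F.d ω' (σ 0)) := by ring
      have e3 : |(al ω - a0 ω) * (F.d ω (σ 0) - F.d ω' (σ 0))| ≤ 3 / 2 ^ (v + q) := by
        rw [abs_mul]
        refine (mul_le_mul na dd0 (abs_nonneg _) (by positivity)).trans (le_of_eq ?_)
        rw [pow_add]
        field_simp
      have e4 : (2 * K + 3) / (2 : ℝ) ^ (v + q) =
        K / 2 ^ (v + q) + K / 2 ^ (v + q) + 3 / 2 ^ (v + q) := by ring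
      rw [e2, e4]
      refine (abs_add_le _ _).trans (add_le_add ((abs_sub _ _).trans ?_) e3)
      exact add_le_add (n1.trans pn) (n2.trans pn)
    obtain ⟨t1, t2⟩ := hx ω hω
    obtain ⟨t1', t2'⟩ := hx ω' hω'
    rw [← exe, ← eτ] at t2'
    have pR : (1 : ℝ) / 2 ^ R ≤ 1 / 2 ^ w :=
      div_le_div_of_nonneg_left zero_le_one (by positivity)
        (pow_le_pow_right₀ (by norm_num) (by omega))
    have pN : K / (2 : ℝ) ^ N ≤ K / 2 ^ (v + q + w) :=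
      div_le_div_of_nonneg_left hK (by positivity) (pow_le_pow_right₀ (by norm_num) hN)
    have pN0 : K / (2 : ℝ) ^ N ≤ K / 2 ^ (q + w) :=
      div_le_div_of_nonneg_left hK (by positivity) (pow_le_pow_right₀ (by norm_num) (by omega))
    have a4 := rc_a4 h hP h1 h2 hω
    have xx0 : |F.x ω (σ 0) - F.x ω' (σ 0)| ≤ (2 * K + 1) / 2 ^ (q + w) := by
      have e2 : F.x ω (σ 0) - F.x ω' (σ 0) =
          (F.x ω (σ 0) - (xe ω (σ 0) - τ ω * F.d ω (σ 0))) -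
            (F.x ω' (σ 0) - (xe ω (σ 0) - τ ω * F.d ω' (σ 0))) -
            τ ω * (F.d ω (σ 0) - F.d ω' (σ 0)) := by ring
      have e3 : |τ ω * (F.d ω (σ 0) - F.d ω' (σ 0))| ≤ 1 / 2 ^ (q + w) := by
        rw [abs_mul]
        refine (mul_le_mul (t1.trans pR) dd0 (abs_nonneg _) (by positivity)).trans (le_of_eq ?_)
        rw [pow_add]
        field_simp
      have e4 : (2 * K + 1) / (2 : ℝ) ^ (q + w) =
        K / 2 ^ (q + w) + K / 2 ^ (q + w) + 1 / 2 ^ (q + w) := by ring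
      rw [e2, e4]
      refine (abs_sub _ _).trans (add_le_add ((abs_sub _ _).trans ?_) e3)
      exact add_le_add ((t2 (σ 0)).trans pN0) ((t2' (σ 0)).trans pN0)
    have xx1 : |F.x ω (σ 1) - a0 ω * F.x ω (σ 0) - (F.x ω' (σ 1) - a0 ω * F.x ω' (σ 0))| ≤
        (12 * K + 3) / 2 ^ (v + q + w) := by
      have e2 : F.x ω (σ 1) - a0 ω * F.x ω (σ 0) - (F.x ω' (σ 1) - a0 ω * F.x ω' (σ 0)) =
          (F.x ω (σ 1) - (xe ω (σ 1) - τ ω * F.d ω (σ 1))) -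
            (F.x ω' (σ 1) - (xe ω (σ 1) - τ ω * F.d ω' (σ 1))) -
            a0 ω * ((F.x ω (σ 0) - (xe ω (σ 0) - τ ω * F.d ω (σ 0))) -
              (F.x ω' (σ 0) - (xe ω (σ 0) - τ ω * F.d ω' (σ 0)))) -
            τ ω * (F.d ω (σ 1) - a0 ω * F.d ω (σ 0) -
              (F.d ω' (σ 1) - a0 ω * F.d ω' (σ 0))) := by ring
      have e3 : |τ ω * (F.d ω (σ 1) - a0 ω * F.d ω (σ 0) -
          (F.d ω' (σ 1) - a0 ω * F.d ω' (σ 0)))| ≤ (2 * K + 3) / 2 ^ (v + q + w) := by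
        rw [abs_mul]
        refine (mul_le_mul (t1.trans pR) dd1 (abs_nonneg _) (by positivity)).trans (le_of_eq ?_)
        rw [pow_add 2 (v + q) w]
        field_simp
      have e5 : |F.x ω (σ 1) - (xe ω (σ 1) - τ ω * F.d ω (σ 1)) -
          (F.x ω' (σ 1) - (xe ω (σ 1) - τ ω * F.d ω' (σ 1)))| ≤
          K / 2 ^ (v + q + w) + K / 2 ^ (v + q + w) :=
        (abs_sub _ _).trans (add_le_add ((t2 (σ 1)).trans pN) ((t2' (σ 1)).trans pN))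
      have e6 : |F.x ω (σ 0) - (xe ω (σ 0) - τ ω * F.d ω (σ 0)) -
          (F.x ω' (σ 0) - (xe ω (σ 0) - τ ω * F.d ω' (σ 0)))| ≤
          K / 2 ^ (v + q + w) + K / 2 ^ (v + q + w) :=
        (abs_sub _ _).trans (add_le_add ((t2 (σ 0)).trans pN) ((t2' (σ 0)).trans pN))
      have e7 : |a0 ω * ((F.x ω (σ 0) - (xe ω (σ 0) - τ ω * F.d ω (σ 0))) -
          (F.x ω' (σ 0) - (xe ω (σ 0) - τ ω * F.d ω' (σ 0))))| ≤
          4 * (K / 2 ^ (v + q + w) + K / 2 ^ (v + q + w)) := by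
        rw [abs_mul]
        exact mul_le_mul a4 e6 (abs_nonneg _) (by norm_num)
      have e4 : (12 * K + 3) / (2 : ℝ) ^ (v + q + w) =
        (K / 2 ^ (v + q + w) + K / 2 ^ (v + q + w)) +
          4 * (K / 2 ^ (v + q + w) + K / 2 ^ (v + q + w)) +
          (2 * K + 3) / 2 ^ (v + q + w) := by ring
      rw [e2, e4]
      exact (abs_sub _ _).trans (add_le_add ((abs_sub _ _).trans (add_le_add e5 e7)) e3)
    have hC : (0 : ℝ) ≤ 12 * K + 3 := by linarith only [hK]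
    have nr : Nr F (M ω) (F.t ω) (fun i => c i + w) c (12 * K + 3) ω ω' := by
      have x1 : F.xa (F.t ω) ω = F.x ω := rfl
      have x2 : F.xa (F.t ω) ω' = F.x ω' := by rw [et]; rfl
      refine ⟨fun i => ?_, fun i => ?_⟩
      · rw [x1, x2]
        fin_cases i
        · show |mco (M ω) (F.x ω) 0 - mco (M ω) (F.x ω') 0| ≤ (12 * K + 3) / 2 ^ (c 0 + w)
          rw [m0, m0, c0]
          exact xx0.trans (div_le_div_of_nonneg_right (by linarith only [hK]) (by positivity))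
        · show |mco (M ω) (F.x ω) 1 - mco (M ω) (F.x ω') 1| ≤ (12 * K + 3) / 2 ^ (c 1 + w)
          rw [m1, m1, c1]
          exact xx1
      · fin_cases i
        · show |mco (M ω) (F.d ω) 0 - mco (M ω) (F.d ω') 0| ≤ (12 * K + 3) / 2 ^ c 0
          rw [m0, m0, c0]
          exact dd0.trans (div_le_div_of_nonneg_right (by linarith only [hK]) (by positivity))
        · show |mco (M ω) (F.d ω) 1 - mco (M ω) (F.d ω') 1| ≤ (12 * K + 3) / 2 ^ c 1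
          rw [m1, m1, c1]
          exact dd1.trans (div_le_div_of_nonneg_right (by linarith only [hK]) (by positivity))
    have hs : |(F.T1 w ω : ℝ) / 2 ^ w - F.t ω| ≤ 1 / 2 ^ w := by
      have := Lab.time_near F hwJ le_rfl (v := w) (min_eq_left hwJ).symm ω
      rw [Lab.T1_J] at this
      rw [abs_sub_comm]
      exact this
    refine ⟨nr.time hC hs (fun _ => le_rfl) (fun _ => le_rfl), ?_, eM,
      hP.dZ ω ω' hω hω' eP⟩
    unfold Fam.T1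
    rw [eT]
  have t1 := CH_le_add h0 (F.blb w c M) a0 Z
  unfold cact
  linarith only [s1, s2, t1]

/-- **The activity** given the exact point and the context. -/
theorem act_blb (h : Rc2 F p σ wa wb (fun _ => v) D (fun _ => a0) al)
    (hP : PtD F p σ al Pt R n N K) (hK : 0 ≤ K) (h1 : wa ≤ w) (h2 : w ≤ wb) (hR : wb ≤ R)
    (hn : v + q ≤ n) (hN : v + q + w ≤ N) (g : ℕ) :
    CH p (fun ω => ⌊(2 : ℝ) ^ (q + g) * F.d ω (σ 0)⌋)
        (fun ω => (Pt ω, ⌊(2 : ℝ) ^ q * F.d ω (σ 0)⌋)) ≤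
      CH p (Uni.dg g (fun ω => F.md (cv2 v q) (frm2 σ a0) ω 0))
        (fun ω => (Pt ω, F.blb w (cv2 v q) (frm2 σ a0) ω)) + cact K := by
  have hp := h.law
  have h0 := hp.nonneg
  have k1 := CH_blb_pt h hP hK h1 h2 hR hn hN
  obtain ⟨Z, hZ⟩ : ∃ Z, Z = fun ω => (Pt ω, ⌊(2 : ℝ) ^ q * F.d ω (σ 0)⌋) := ⟨_, rfl⟩
  rw [← hZ] at k1 ⊢
  have t1 := CH_le_add h0 (fun ω => ⌊(2 : ℝ) ^ (q + g) * F.d ω (σ 0)⌋)
    (F.blb w (cv2 v q) (frm2 σ a0)) Z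
  have t2 : CH p (fun ω => ⌊(2 : ℝ) ^ (q + g) * F.d ω (σ 0)⌋)
      (fun ω => (F.blb w (cv2 v q) (frm2 σ a0) ω, Z ω)) ≤
      CH p (Uni.dg g (fun ω => F.md (cv2 v q) (frm2 σ a0) ω 0))
        (fun ω => (F.blb w (cv2 v q) (frm2 σ a0) ω, Z ω)) := by
    refine CH_mono_left h0 ?_
    intro ω ω' _ _ e
    have e1 := Prod.ext_iff.mp e
    have e2 := Prod.ext_iff.mp e1.2
    have e3 : ⌊(2 : ℝ) ^ g * F.md (cv2 v q) (frm2 σ a0) ω 0⌋ =
      ⌊(2 : ℝ) ^ g * F.md (cv2 v q) (frm2 σ a0) ω' 0⌋ := e1.1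
    have e4 : F.mvl (cv2 v q) (frm2 σ a0) ω = F.mvl (cv2 v q) (frm2 σ a0) ω' :=
      (Box.mlb_ext e2.1).2.2.2.1
    have key : ∀ ω : F.Ω, (2 : ℝ) ^ (q + g) * F.d ω (σ 0) =
        2 ^ g * F.md (cv2 v q) (frm2 σ a0) ω 0 +
          ((2 ^ g * F.mvl (cv2 v q) (frm2 σ a0) ω 0 : ℤ) : ℝ) := by
      intro ω
      have v0 := Box.mvl_add F (cv2 v q) (frm2 σ a0) ω 0
      have m0 : mco (frm2 σ a0 ω) (F.d ω) 0 = F.d ω (σ 0) := mco2_0 σ (a0 ω) _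
      have c0 : cv2 v q 0 = q := rfl
      rw [m0, c0] at v0
      rw [pow_add]
      push_cast
      linear_combination (2 : ℝ) ^ g * v0
    show ⌊(2 : ℝ) ^ (q + g) * F.d ω (σ 0)⌋ = ⌊(2 : ℝ) ^ (q + g) * F.d ω' (σ 0)⌋
    rw [key, key, Int.floor_add_intCast, Int.floor_add_intCast, e3, e4]
  have t3 : CH p (Uni.dg g (fun ω => F.md (cv2 v q) (frm2 σ a0) ω 0))
        (fun ω => (F.blb w (cv2 v q) (frm2 σ a0) ω, Z ω)) ≤
      CH p (Uni.dg g (fun ω => F.md (cv2 v q) (frm2 σ a0) ω 0))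
        (fun ω => (Pt ω, F.blb w (cv2 v q) (frm2 σ a0) ω)) := by
    refine CH_mono_cond h0 ?_
    intro ω ω' _ _ e
    have e1 := Prod.ext_iff.mp e
    have e2 : Z ω = Z ω' := e1.2
    rw [hZ] at e2
    exact Prod.ext (Prod.ext_iff.mp e2).1 e1.1
  linarith only [k1, t1, t2, t3]

end flat

end Pool.FLT
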