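import Pool.Agent.H48.PC.FltC

/-!
# Flat cells: the theorem on a rectangle, statement

One constant frame `a0` of precision `v` on the rectangle `[wa, wb] × [qa, qb)`. The set `B` of bad
contexts is chosen before the times, the slopes and the activity; these are hypotheses at the
context `(w, q)`.
-/

set_option autoImplicit false

namespace Pool.FLT

open Finset Real
open Pool.Agent.H49.Ent Pool.Agent.H32.Dense Pool.STK Pool.KA Pool.KSAT Pool.K2S Pool.S6U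
open Pool.UEG Pool.KG Pool.OCG

/-- The shape of the rectangle. -/
structure ShF (J wa wb v D R X qa qb : ℕ) (γ : ℝ) : Prop where
  wab : wa ≤ wb
  qab : qa ≤ qb
  wR : wb ≤ R
  RJ : R ≤ J
  vD : v + X ≤ D
  Xw : (X : ℝ) ≤ γ * (wb + 1 - wa : ℕ)
  Xq : (X : ℝ) ≤ γ * (qb - qa : ℕ)
  Dq : ((D - v : ℕ) : ℝ) ≤ γ * (qb - qa : ℕ)
  Rq : ((R - wa : ℕ) : ℝ) ≤ γ * (qb - qa : ℕ)

/-- The hypotheses at the context `(w, q)`. -/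
structure HwF {J : ℕ} (F : Fam 2 J) (p : F.Ω → ℝ) (σ : Fin 2 → Fin 2) (v D : ℕ)
    (a0 al : F.Ω → ℝ) {P : Type} (Pt : F.Ω → P) (X k' : ℕ) (x₁ ϖ ε₂ κ εN ca : ℝ) (w q : ℕ) :
    Prop where
  tim : ∑ i ∈ Finset.range X, nr p (slam F w) (F.wt w) k' i ≤ εN * X
  th : Pool.KAF.Pr (dbl p (slam F w))
    {u | |sl2 v D a0 al u.2 - sl2 v D a0 al u.1| < (2 : ℝ) ^ (-(x₁ * X))} ≤ ε₂
  act : ∀ E : F.Ω → Prop, ϖ ≤ Pe p E → ca * ⌊κ * X⌋₊ * Real.log 2 ≤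
    CH (Pool.Agent.H49.Ent.cond p E True) (fun ω => ⌊(2 : ℝ) ^ (q + ⌊κ * X⌋₊) * F.d ω (σ 0)⌋)
      (fun ω => (Pt ω, ⌊(2 : ℝ) ^ q * F.d ω (σ 0)⌋))

/-- **The flat step on a rectangle.** -/
def FlatRectStmt : Prop :=
  ∀ ε ca K ρ : ℝ, 0 < ε → 0 < ca → 0 ≤ K → 0 < ρ → ∃ x₁ ϖ ε₂ κ εN : ℝ, 0 < x₁ ∧ 0 < ϖ ∧ 0 < ε₂ ∧
    0 < κ ∧ κ ≤ 1 ∧ 0 < εN ∧ ∀ k' : ℕ, ∃ (γ : ℝ) (X₀ : ℕ), 0 < γ ∧ γ ≤ 1 ∧
    ∀ (J : ℕ) (F : Fam 2 J) (p : F.Ω → ℝ) (σ : Fin 2 → Fin 2) (wa wb v D R : ℕ)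
      (a0 al : F.Ω → ℝ) (P : Type) (Pt : F.Ω → P) (n N X qa qb : ℕ), X₀ ≤ X →
      Rc2 F p σ wa wb (fun _ => v) D (fun _ => a0) al → ShF J wa wb v D R X qa qb γ →
      Det p (F.T1 R) F.T → PtD F p σ al Pt R n N K →
      ∃ B : Finset (ℕ × ℕ), B ⊆ Finset.Icc wa wb ×ˢ Finset.Ico qa qb ∧
        (B.card : ℝ) ≤ ρ * ((wb + 1 - wa : ℕ) * (qb - qa : ℕ)) ∧
        ∀ w q, wa ≤ w → w + X ≤ wb → qa ≤ q → q < qb → (w, q) ∉ B → v + q + X ≤ n →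
          v + q + w + X ≤ N → HwF F p σ v D a0 al Pt X k' x₁ ϖ ε₂ κ εN ca w q →
          Cc2 F p σ (fun _ => v) D (fun _ => a0) al X ε w q

end Pool.FLT
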